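import Pool.Agent.H937.QS.Stm2

/-!
Project QS (helper937): the universal algebra of a based algebra over a polynomial ring embeds into
the field (generalisation of `core_inj` and `core_struct` of `Pool/Agent/H413/RS/Core.lean`).
-/

set_option autoImplicit false

open scoped Matrix TensorProduct
open Pool.Agent.H937.QS

universe u v

namespace Pool.Agent.H277.QS.CORE

section ev

variable {P F S : Type u} [CommRing P] [CommRing F] [CommRing S] [Algebra P F] [Algebra P S]
  {d : ℕ} (D : MulData d P) (T : Matrix (Fin (d + 1)) (Fin (d + 1)) F)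
  (hT0 : ∀ q, T q 0 = 1)
  (hmul : ∀ q i l, T q i * T q l = ∑ m, T q m * algebraMap P F (D.F i m l))
  (f : F →ₐ[P] S)

include hmul in
lemma ev_M (q : Fin (d + 1)) (x y : Fin (d + 1) → S) :
    ∑ m, ((DU D S).M x *ᵥ y) m * f (T q m) =
      (∑ m, x m * f (T q m)) * ∑ m, y m * f (T q m) := by
  have h1 : ∀ i l, f (T q i) * f (T q l) = ∑ m, f (T q m) * algebraMap P S (D.F i m l) := by
    intro i l
    rw [← map_mul, hmul, map_sum]
    refine Finset.sum_congr rfl fun m _ => ?_
    rw [map_mul, f.commutes]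
  have h2 : ∀ m, ((DU D S).M x *ᵥ y) m = ∑ l, ∑ i, x i * algebraMap P S (D.F i m l) * y l := by
    intro m
    rw [Matrix.mulVec, dotProduct]
    refine Finset.sum_congr rfl fun l _ => ?_
    rw [MulData.M, Matrix.sum_apply, Finset.sum_mul]
    refine Finset.sum_congr rfl fun i _ => ?_
    rw [Matrix.smul_apply, smul_eq_mul]
    rfl
  calc ∑ m, ((DU D S).M x *ᵥ y) m * f (T q m)
      = ∑ m, ∑ l, ∑ i, x i * y l * (f (T q m) * algebraMap P S (D.F i m l)) := by
        refine Finset.sum_congr rfl fun m _ => ?_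
        rw [h2, Finset.sum_mul]
        refine Finset.sum_congr rfl fun l _ => ?_
        rw [Finset.sum_mul]
        refine Finset.sum_congr rfl fun i _ => ?_
        ring
    _ = ∑ l, ∑ i, x i * y l * ∑ m, (f (T q m) * algebraMap P S (D.F i m l)) := by
        rw [Finset.sum_comm]
        refine Finset.sum_congr rfl fun l _ => ?_
        rw [Finset.sum_comm]
        refine Finset.sum_congr rfl fun i _ => ?_
        rw [Finset.mul_sum]
    _ = ∑ l, ∑ i, (x i * f (T q i)) * (y l * f (T q l)) := by
        refine Finset.sum_congr rfl fun l _ => ?_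
        refine Finset.sum_congr rfl fun i _ => ?_
        rw [← h1]
        ring
    _ = (∑ m, x m * f (T q m)) * ∑ m, y m * f (T q m) := by
        rw [Finset.sum_comm, Finset.sum_mul_sum]

include hT0 in
lemma ev_single (q : Fin (d + 1)) (s : S) :
    ∑ m, (Pi.single 0 s : Fin (d + 1) → S) m * f (T q m) = s := by
  rw [Finset.sum_eq_single 0]
  · rw [Pi.single_eq_same, hT0, map_one, mul_one]
  · intro m _ hm
    rw [Pi.single_eq_of_ne hm, zero_mul]
  · intro h
    exact absurd (Finset.mem_univ _) h

/-- Evaluation of the based algebra at the point number `q`. -/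
noncomputable def ev (hT0 : ∀ q, T q 0 = 1)
    (hmul : ∀ q i l, T q i * T q l = ∑ m, T q m * algebraMap P F (D.F i m l)) (f : F →ₐ[P] S)
    (q : Fin (d + 1)) : Al (DU D S) →+* S where
  toFun x := ∑ m, x.v m * f (T q m)
  map_one' := ev_single T hT0 f q 1
  map_mul' x y := ev_M D T hmul f q x.v y.v
  map_zero' := by
    change ∑ m, (0 : S) * f (T q m) = 0
    simp only [zero_mul, Finset.sum_const_zero]
  map_add' x y := by
    change ∑ m, (x.v m + y.v m) * f (T q m) = _
    rw [← Finset.sum_add_distrib]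
    refine Finset.sum_congr rfl fun m _ => ?_
    ring

lemma ev_apply (q : Fin (d + 1)) (x : Al (DU D S)) :
    ev D T hT0 hmul f q x = ∑ m, x.v m * f (T q m) := rfl

lemma ev_alg {k : Type v} [CommRing k] [Algebra k S] (q : Fin (d + 1)) (c : k) :
    ev D T hT0 hmul f q (algebraMap k (Al (DU D S)) c) = algebraMap k S c :=
  ev_single T hT0 f q _

end ev

lemma ev_mv {F S : Type*} [CommRing F] [CommRing S] {n : ℕ}
    (T : Matrix (Fin n) (Fin n) F) (f : F →+* S) (x : Fin n → S) :
    (fun q => ∑ m, x m * f (T q m)) = T.map f *ᵥ x := by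
  funext q
  rw [Matrix.mulVec, dotProduct]
  refine Finset.sum_congr rfl fun m _ => ?_
  rw [Matrix.map_apply, mul_comm]

lemma ev_inv {F S : Type*} [Field F] [CommRing S] {n : ℕ}
    (T : Matrix (Fin n) (Fin n) F) (hdet : T.det ≠ 0) (f : F →+* S) (x : Fin n → S) :
    (T⁻¹).map f *ᵥ (fun q => ∑ m, x m * f (T q m)) = x := by
  have hinv : T⁻¹ * T = 1 := Matrix.nonsing_inv_mul T (Ne.isUnit hdet)
  have hmap : (T⁻¹).map f * T.map f = 1 := by
    rw [← Matrix.map_mul, hinv, Matrix.map_one f (map_zero f) (map_one f)]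
  rw [ev_mv, Matrix.mulVec_mulVec, hmap, Matrix.one_mulVec]

lemma ev_inj {F S : Type*} [Field F] [CommRing S] {n : ℕ}
    (T : Matrix (Fin n) (Fin n) F) (hdet : T.det ≠ 0) (f : F →+* S) (x y : Fin n → S)
    (h : ∀ q, ∑ m, x m * f (T q m) = ∑ m, y m * f (T q m)) : x = y := by
  have h4 : (fun q => ∑ m, x m * f (T q m)) = fun q => ∑ m, y m * f (T q m) := funext h
  rw [← ev_inv T hdet f x, h4, ev_inv T hdet f y]

section core

variable {k F B R L : Type u} [Field k] [Field F] [Algebra k F] [CommRing B] [Algebra k B]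
  [CommRing R] [Algebra k R] {d : ℕ} {j : Fin (d + 1) → (B →ₐ[k] R)} (hj : IsCop k j)
  [Field L] [Algebra k L] (φ : F →ₐ[k] L) (γ : R →ₐ[k] L)
  (T : Matrix (Fin (d + 1)) (Fin (d + 1)) F) (hT0 : ∀ q, T q 0 = 1) (hdet : T.det ≠ 0)
  (y : B → Fin (d + 1) → L)
  (hy : ∀ b q, γ (j q b) = ∑ m, y b m * φ (T q m))

include hj hT0 hdet hy in
/-- The injectivity of the comparison map, by base change to `F`. -/
theorem core_inj {P : Type u} [CommRing P] [Algebra k P] [Algebra P F] [Algebra P L]
    [IsScalarTower k P F] [IsScalarTower k P L] (D : MulData d P)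
    (hmul : ∀ q i l, T q i * T q l = ∑ m, T q m * algebraMap P F (D.F i m l))
    (G : UU k B D →ₐ[P] L)
    (hG0 : ∀ b m, G ((Uhom k B D b).v m) = y b m)
    {Ut : Type u} [CommRing Ut] [Algebra P Ut] [Algebra k Ut] [IsScalarTower k P Ut]
    (inF : F →ₐ[P] Ut) (inU : UU k B D →ₐ[P] Ut) (hinU : Function.Injective inU)
    (Gt : Ut →ₐ[P] L) (hGtU : ∀ x, Gt (inU x) = G x) (hGtF : ∀ x, Gt (inF x) = φ x)
    (hspan : ∀ E : Subalgebra k Ut, (∀ x, inU x ∈ E) → (∀ x, inF x ∈ E) → E = ⊤)
    (hinj : Function.Injective (Algebra.TensorProduct.productMap γ φ)) :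
    Function.Injective G := by
  classical
  let evt : Fin (d + 1) → (Al (DU D Ut) →+* Ut) := fun q => ev D T hT0 hmul inF q
  have hevt : ∀ q x, evt q x = ∑ m, x.v m * inF (T q m) := fun q x => rfl
  let yt : B →ₐ[k] Al (DU D Ut) := (Al.mapₐ inU).comp (Uhom k B D)
  let ft : Fin (d + 1) → (B →ₐ[k] Ut) := fun q =>
    { (evt q).comp yt.toRingHom with
      commutes' := by
        intro c
        change evt q (yt (algebraMap k B c)) = algebraMap k Ut c
        rw [AlgHom.commutes]
        exact ev_alg D T hT0 hmul inF q c }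
  have hft : ∀ q b, ft q b = ∑ m, inU ((Uhom k B D b).v m) * inF (T q m) := fun q b => rfl
  obtain ⟨Ψ1, hΨ1⟩ := hj.lift Ut ft
  let Ψ2 : F →ₐ[k] Ut := inF.restrictScalars k
  let Ψ : R ⊗[k] F →ₐ[k] Ut := Algebra.TensorProduct.productMap Ψ1 Ψ2
  have hΨt : ∀ x z, Ψ (x ⊗ₜ z) = Ψ1 x * inF z := fun x z => rfl
  -- the composition
  have hcomp1 : (Gt.restrictScalars k).comp Ψ1 = γ := by
    apply hj.ext
    intro q b
    rw [AlgHom.comp_apply, hΨ1, hft]
    change Gt _ = _
    rw [map_sum, hy b q]
    refine Finset.sum_congr rfl fun m _ => ?_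
    rw [map_mul, hGtU, hGtF, hG0]
  have hcomp : (Gt.restrictScalars k).comp Ψ = Algebra.TensorProduct.productMap γ φ := by
    apply Algebra.TensorProduct.ext
    · apply AlgHom.ext
      intro r
      change Gt (Ψ (r ⊗ₜ 1)) = Algebra.TensorProduct.productMap γ φ (r ⊗ₜ 1)
      rw [hΨt, map_one, mul_one, Algebra.TensorProduct.productMap_apply_tmul, map_one, mul_one]
      exact congrArg (fun g : R →ₐ[k] L => g r) hcomp1
    · apply AlgHom.ext
      intro r
      change Gt (Ψ (1 ⊗ₜ r)) = Algebra.TensorProduct.productMap γ φ (1 ⊗ₜ r)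
      rw [hΨt, map_one, one_mul, Algebra.TensorProduct.productMap_apply_tmul, map_one, one_mul]
      exact hGtF r
  -- surjectivity of `Ψ`
  have hΨF : ∀ x, inF x ∈ Ψ.range := by
    intro x
    refine ⟨1 ⊗ₜ x, ?_⟩
    change Ψ (1 ⊗ₜ x) = _
    rw [hΨt, map_one, one_mul]
  have hΨft : ∀ i b, ft i b ∈ Ψ.range := by
    intro i b
    refine ⟨j i b ⊗ₜ 1, ?_⟩
    change Ψ (j i b ⊗ₜ 1) = _
    rw [hΨt, map_one, mul_one]
    exact hΨ1 i b
  have hΨU : ∀ b m, inU ((Uhom k B D b).v m) ∈ Ψ.range := by
    intro b m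
    have he2 := ev_inv T hdet inF.toRingHom (fun m => inU ((Uhom k B D b).v m))
    have he3 : (T⁻¹.map inF.toRingHom *ᵥ fun q => ft q b) m = inU ((Uhom k B D b).v m) :=
      congrFun he2 m
    rw [← he3, Matrix.mulVec, dotProduct]
    exact Ψ.range.sum_mem fun q _ => Ψ.range.mul_mem (hΨF _) (hΨft _ _)
  have hΨU' : ∀ x, inU x ∈ Ψ.range := by
    let Tt : Subalgebra P (UU k B D) :=
      { carrier := {x | inU x ∈ Ψ.range}
        mul_mem' := by
          intro x y hx hy
          change inU (x * y) ∈ Ψ.range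
          rw [map_mul]
          exact Ψ.range.mul_mem hx hy
        add_mem' := by
          intro x y hx hy
          change inU (x + y) ∈ Ψ.range
          rw [map_add]
          exact Ψ.range.add_mem hx hy
        algebraMap_mem' := by
          intro p
          change inU (algebraMap P _ p) ∈ Ψ.range
          rw [AlgHom.commutes, ← inF.commutes]
          exact hΨF _ }
    have hTt : Tt = ⊤ := Ugen (k := k) (B := B) (D := D) Set.univ (Algebra.adjoin_univ k B) Tt
      (fun b _ m => hΨU b m)
    intro x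
    have hx : x ∈ Tt := by rw [hTt]; trivial
    exact hx
  have hΨsurj : ∀ z : Ut, z ∈ Ψ.range := by
    intro z
    have h := hspan Ψ.range hΨU' hΨF
    rw [h]
    trivial
  rw [injective_iff_map_eq_zero]
  intro x hx
  obtain ⟨z, hz⟩ := hΨsurj (inU x)
  have h1 : Algebra.TensorProduct.productMap γ φ z = 0 := by
    rw [← hcomp]
    change Gt (Ψ z) = 0
    have hz' : Ψ z = inU x := hz
    rw [hz', hGtU, hx]
  have h2 : z = 0 := hinj (by rw [h1, map_zero])
  have h3 : inU x = 0 := by
    rw [← hz, h2]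
    exact map_zero _
  exact hinU (by rw [h3, map_zero])

end core

theorem t_CORE : S_CORE.{u} := by
  intro k F B R L _ _ _ _ _ _ _ _ d j hj _ _ φ γ T hT0 hdet σ _ a ha D hmul hinj
  classical
  let P := MvPolynomial σ k
  let algPF : P →ₐ[k] F := MvPolynomial.aeval a
  have hPF : Function.Injective algPF := ha
  letI : Algebra P F := algPF.toRingHom.toAlgebra
  letI : Algebra P L := (φ.comp algPF).toRingHom.toAlgebra
  haveI : IsScalarTower k P F := IsScalarTower.of_algebraMap_eq fun r => (algPF.commutes r).symm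
  haveI : IsScalarTower k P L := IsScalarTower.of_algebraMap_eq fun r =>
    ((φ.comp algPF).commutes r).symm
  let φP : F →ₐ[P] L :=
    { φ.toRingHom with
      commutes' := fun p => rfl }
  have hmul' : ∀ q i l, T q i * T q l = ∑ m, T q m * algebraMap P F (D.F i m l) := hmul
  -- the coordinates
  let y : B → Fin (d + 1) → L := fun b => (T.map φ)⁻¹ *ᵥ fun q => γ (j q b)
  have hdet' : (T.map φ).det ≠ 0 := by
    have h1 : (T.map φ).det = φ T.det := (AlgHom.map_det φ T).symm
    rw [h1]
    exact (map_ne_zero φ).2 hdet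
  have hy : ∀ b q, γ (j q b) = ∑ m, y b m * φ (T q m) := by
    intro b q
    have h1 : T.map φ *ᵥ y b = fun q => γ (j q b) := by
      change T.map φ *ᵥ ((T.map φ)⁻¹ *ᵥ fun q => γ (j q b)) = _
      rw [Matrix.mulVec_mulVec, Matrix.mul_nonsing_inv _ (Ne.isUnit hdet'), Matrix.one_mulVec]
    have h2 := congrFun h1 q
    rw [Matrix.mulVec, dotProduct] at h2
    rw [← h2]
    refine Finset.sum_congr rfl fun m _ => ?_
    rw [Matrix.map_apply, mul_comm]
  -- the homomorphism from `B` to the based algebra over `L`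
  let evL : Fin (d + 1) → (Al (DU D L) →+* L) := fun q => ev D T hT0 hmul' φP q
  have evL_ext : ∀ x x' : Al (DU D L), (∀ i, evL i x = evL i x') → x = x' := by
    intro x x' h
    exact Al.ext (ev_inj T hdet φ.toRingHom x.v x'.v h)
  have evL_y : ∀ b i, evL i ⟨y b⟩ = γ (j i b) := fun b i => (hy b i).symm
  have evL_alg : ∀ (c : k) i, evL i (algebraMap k _ c) = algebraMap k L c := fun c i =>
    ev_alg D T hT0 hmul' φP i c
  let fL : B →ₐ[k] Al (DU D L) :=
    { toFun := fun b => ⟨y b⟩
      map_one' := by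
        apply evL_ext
        intro i
        rw [evL_y, map_one, map_one, map_one]
      map_mul' := by
        intro b b'
        apply evL_ext
        intro i
        rw [map_mul, evL_y, evL_y, evL_y, map_mul, map_mul]
      map_zero' := by
        apply evL_ext
        intro i
        rw [evL_y, map_zero, map_zero, map_zero]
      map_add' := by
        intro b b'
        apply evL_ext
        intro i
        rw [map_add, evL_y, evL_y, evL_y, map_add, map_add]
      commutes' := by
        intro c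
        apply evL_ext
        intro i
        rw [evL_y, evL_alg, AlgHom.commutes, AlgHom.commutes] }
  obtain ⟨G, hG⟩ := Ulift fL
  have hG0 : ∀ b m, G ((Uhom k B D b).v m) = y b m := fun b m => hG b m
  have hsm : Algebra.Smooth P (UU k B D) := UU_smooth
  -- injectivity
  have hGinj : Function.Injective G := by
    have hinU : Function.Injective
        (Algebra.TensorProduct.includeLeft : UU k B D →ₐ[P] UU k B D ⊗[P] F) :=
      Algebra.TensorProduct.includeLeft_injective (S := P) hPF
    refine core_inj hj φ γ T hT0 hdet y hy D hmul' G hG0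
      (Ut := UU k B D ⊗[P] F) (Algebra.TensorProduct.includeRight : F →ₐ[P] UU k B D ⊗[P] F)
      (Algebra.TensorProduct.includeLeft : UU k B D →ₐ[P] UU k B D ⊗[P] F)
      hinU (Algebra.TensorProduct.productMap G φP) ?_ ?_ ?_ hinj
    · intro x
      change Algebra.TensorProduct.productMap G φP (x ⊗ₜ 1) = _
      rw [Algebra.TensorProduct.productMap_apply_tmul, map_one, mul_one]
    · intro x
      change Algebra.TensorProduct.productMap G φP (1 ⊗ₜ x) = _
      rw [Algebra.TensorProduct.productMap_apply_tmul, map_one, one_mul]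
      rfl
    · intro E h1 h2
      rw [eq_top_iff]
      rintro z -
      induction z using TensorProduct.induction_on with
      | zero => exact E.zero_mem
      | tmul x f =>
        have h3 : x ⊗ₜ[P] f = (x ⊗ₜ[P] (1 : F)) * ((1 : UU k B D) ⊗ₜ[P] f) := by
          rw [Algebra.TensorProduct.tmul_mul_tmul, mul_one, one_mul]
        rw [h3]
        exact E.mul_mem (h1 x) (h2 f)
      | add x y hx hy => exact E.add_mem hx hy
  refine ⟨G.restrictScalars k, hGinj, fun b m => hG0 b m, fun s => ?_⟩
  change G (algebraMap P _ (MvPolynomial.X s)) = _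
  rw [AlgHom.commutes]
  exact congrArg φ (MvPolynomial.aeval_X a s)

end Pool.Agent.H277.QS.CORE
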